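import Mathlib
import Pool.Agent.H90.IssD

namespace Pool.Agent.Results.MP_9da05b_an.NotISS

open Pool.Agent.H90.Iss

theorem result : ∃ (T : ℝ) (hT : 0 < T) (n m : ℕ) (f : Hist T n → Euc m → Euc n)
    (V : Hist T n → ℝ) (ψ₁ ψ₂ α γ α' χ : ℝ → ℝ),
    1 ≤ n ∧ 1 ≤ m ∧ Admissible f ∧ Continuous V ∧ Regular hT f V ∧
    ClassKInf ψ₁ ∧ ClassKInf ψ₂ ∧ (∀ x, ψ₁ ‖cur hT x‖ ≤ V x ∧ V x ≤ ψ₂ ‖x‖) ∧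
    ClassKInf α ∧ ClassK χ ∧
    (∀ x v, χ ‖v‖ ≤ ‖cur hT x‖ → driver hT f V x v ≤ ((-α ‖cur hT x‖ : ℝ) : EReal)) ∧
    ClassKInf α' ∧ ClassKInf γ ∧
    (∀ x v, driver hT f V x v ≤ ((-α' ‖cur hT x‖ + γ ‖v‖ : ℝ) : EReal)) ∧
    ¬ ISSEstimate f :=
  main

end Pool.Agent.Results.MP_9da05b_an.NotISS
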